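import Pool.Agent.H78.XQ.Targets

set_option autoImplicit false

open Finset

namespace Pool.Agent.H91.XQ

open Pool.Agent.H78.XQ Pool.Agent.H6.NB Pool.Agent.H70.OQ Pool.Agent.H70.EH Pool.Agent.H70.EI

/-- the number of ones of an extension -/
theorem nt_ext {V : Type} [Fintype V] [DecidableEq V] (κ : V → Option Bool) (y : V → Bool)
    (h : Pool.Agent.H68.AC.Ext κ y) :
    nt y = nv κ (some true) + (univ.filter fun v => κ v = none ∧ y v = true).card := by
  unfold nt nv
  rw [← Finset.card_union_of_disjoint]
  · congr 1
    ext v
    simp only [Finset.mem_filter, Finset.mem_univ, true_and, Finset.mem_union]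
    constructor
    · intro hv
      rcases hκ : κ v with _ | b
      · right
        exact ⟨rfl, hv⟩
      · left
        have := h v b hκ
        rw [hv] at this
        rw [this]
    · rintro (hv | hv)
      · exact h v true hv
      · exact hv.2
  · rw [Finset.disjoint_left]
    intro v hv hv'
    have h1 := (Finset.mem_filter.1 hv).2
    have h2 := (Finset.mem_filter.1 hv').2.1
    rw [h1] at h2
    exact absurd h2 (by simp)

theorem cws : T_CWS := by
  classical
  intro V _ _ κ W hW
  unfold nv at hW ⊢
  rw [show (univ.filter fun v => κ v = none).card.choose
      (W - (univ.filter fun v => κ v = some true).card) =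
      (Finset.powersetCard (W - (univ.filter fun v => κ v = some true).card)
        (univ.filter fun v => κ v = none)).card from (Finset.card_powersetCard _ _).symm]
  refine Finset.card_nbij' (fun y => univ.filter fun v => κ v = none ∧ y v = true)
    (fun s v => match κ v with
      | some b => b
      | none => decide (v ∈ s)) ?_ ?_ ?_ ?_
  · intro y hy
    rw [Finset.mem_coe, ws, Finset.mem_filter] at hy
    have h1 := nt_ext κ y hy.2.1
    rw [hy.2.2] at h1
    unfold nv at h1
    rw [Finset.mem_coe, Finset.mem_powersetCard]
    refine ⟨?_, ?_⟩
    · intro v hv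
      exact Finset.mem_filter.2 ⟨Finset.mem_univ _, (Finset.mem_filter.1 hv).2.1⟩
    · show (univ.filter fun v => κ v = none ∧ y v = true).card = _
      omega
  · intro s hs
    rw [Finset.mem_coe, Finset.mem_powersetCard] at hs
    rw [Finset.mem_coe, ws, Finset.mem_filter]
    have hext : Pool.Agent.H68.AC.Ext κ (fun v => match κ v with
      | some b => b
      | none => decide (v ∈ s)) := by
      intro v b hb
      show (match κ v with
        | some b => b
        | none => decide (v ∈ s)) = b
      rw [hb]
    refine ⟨Finset.mem_univ _, hext, ?_⟩
    have h1 := nt_ext κ _ hext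
    have h2 : (univ.filter fun v => κ v = none ∧ (match κ v with
      | some b => b
      | none => decide (v ∈ s)) = true) = s := by
      ext v
      rw [Finset.mem_filter]
      constructor
      · rintro ⟨-, h3, h4⟩
        rw [h3] at h4
        simpa using h4
      · intro hv
        have h3 : κ v = none := (Finset.mem_filter.1 (hs.1 hv)).2
        refine ⟨Finset.mem_univ _, h3, ?_⟩
        rw [h3]
        simpa using hv
    rw [h2, hs.2] at h1
    rw [h1]
    unfold nv
    omega
  · intro y hy
    rw [Finset.mem_coe, ws, Finset.mem_filter] at hy
    funext v
    show (match κ v with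
      | some b => b
      | none => decide (v ∈ univ.filter fun v => κ v = none ∧ y v = true)) = y v
    rcases hκ : κ v with _ | b
    · simp only [Finset.mem_filter, Finset.mem_univ, true_and, hκ]
      cases y v <;> simp
    · exact (hy.2.1 v b hκ).symm
  · intro s hs
    rw [Finset.mem_coe, Finset.mem_powersetCard] at hs
    show (univ.filter fun v => κ v = none ∧ (match κ v with
      | some b => b
      | none => decide (v ∈ s)) = true) = s
    ext v
    rw [Finset.mem_filter]
    constructor
    · rintro ⟨-, h3, h4⟩
      rw [h3] at h4
      simpa using h4
    · intro hv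
      have h3 : κ v = none := (Finset.mem_filter.1 (hs.1 hv)).2
      refine ⟨Finset.mem_univ _, h3, ?_⟩
      rw [h3]
      simpa using hv

end Pool.Agent.H91.XQ
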