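import Pool.Agent.H78.XQ.Targets

set_option autoImplicit false

open Finset
open scoped Matrix

namespace Pool.Agent.H91.XQ

open Pool.Agent.H78.XQ Pool.Agent.H6.NB Pool.Agent.H70.OQ Pool.Agent.H70.EH Pool.Agent.H70.EI

theorem coin_phase_false (O : List Bool → Bool) (s : List Bool) (r : ℕ) (z : Fin r → Bool) :
    (coin s r).phase O ((z, false) : (Fin r → Bool) × Bool) = 1 := by
  show ((if ((z, false) : (Fin r → Bool) × Bool).2 then
      [wps s (List.ofFn ((z, false) : (Fin r → Bool) × Bool).1)] else []).map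
    fun w => if O w then (-1 : ℂ) else 1).prod = 1
  simp

theorem coin_phase_true (O : List Bool → Bool) (s : List Bool) (r : ℕ) (z : Fin r → Bool) :
    (coin s r).phase O ((z, true) : (Fin r → Bool) × Bool) =
      if O (wps s (List.ofFn z)) then -1 else 1 := by
  show ((if ((z, true) : (Fin r → Bool) × Bool).2 then
      [wps s (List.ofFn ((z, true) : (Fin r → Bool) × Bool).1)] else []).map
    fun w => if O w then (-1 : ℂ) else 1).prod = _
  simp

theorem coin_state1 (O : List Bool → Bool) (s : List Bool) (r : ℕ) (z : Fin r → Bool) :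
    (coin s r).state O 1 ((z, true) : (Fin r → Bool) × Bool) =
      ((1 / √2 : ℝ) : ℂ) * ((1 / √(2 ^ (r + 1)) : ℝ) : ℂ) *
        (1 - if O (wps s (List.ofFn z)) then -1 else 1) := by
  have h0 : (coin s r).state O 0 = fun _ => ((1 / √(2 ^ (r + 1)) : ℝ) : ℂ) := by
    show ((if (0 : ℕ) = 1 then hdl r else 1) : Matrix ((Fin r → Bool) × Bool) ((Fin r → Bool) × Bool) ℂ) *ᵥ
      (fun _ => ((1 / √(2 ^ (r + 1)) : ℝ) : ℂ)) = _
    rw [if_neg (by norm_num), Matrix.one_mulVec]
    rfl
  have h1 : (coin s r).state O 1 = (hdl r) *ᵥ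
      (fun i : (Fin r → Bool) × Bool => (coin s r).phase O i * (coin s r).state O 0 i) := by
    show ((if (0 + 1 : ℕ) = 1 then hdl r else 1) : Matrix ((Fin r → Bool) × Bool) ((Fin r → Bool) × Bool) ℂ) *ᵥ
      (fun i : (Fin r → Bool) × Bool => (coin s r).phase O i * (coin s r).state O 0 i) = _
    rw [if_pos (by norm_num)]
  rw [h1, h0]
  show ∑ j : (Fin r → Bool) × Bool, hdl r (z, true) j *
    ((coin s r).phase O j * ((1 / √(2 ^ (r + 1)) : ℝ) : ℂ)) = _
  rw [Fintype.sum_prod_type, Finset.sum_eq_single z]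
  · rw [Fintype.sum_bool, coin_phase_false, coin_phase_true]
    simp only [hdl, Matrix.of_apply, if_true, Bool.and_true, Bool.and_false]
    push_cast
    ring
  · intro x _ hx
    apply Finset.sum_eq_zero
    intro y _
    have : hdl r (z, true) (x, y) = 0 := by
      simp only [hdl, Matrix.of_apply]
      rw [if_neg (fun e => hx e.symm)]
    rw [this, zero_mul]
  · intro h
    exact absurd (Finset.mem_univ _) h

theorem coin_norm2 (O : List Bool → Bool) (s : List Bool) (r : ℕ) (z : Fin r → Bool) :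
    ‖(coin s r).state O 2 ((z, true) : (Fin r → Bool) × Bool)‖ ^ 2 =
      if O (wps s (List.ofFn z)) then 1 / 2 ^ r else 0 := by
  have h2 : (coin s r).state O 2 ((z, true) : (Fin r → Bool) × Bool) =
      (coin s r).phase O ((z, true) : (Fin r → Bool) × Bool) *
        (coin s r).state O 1 ((z, true) : (Fin r → Bool) × Bool) := by
    have e : (coin s r).state O 2 = ((1 : Matrix ((Fin r → Bool) × Bool) ((Fin r → Bool) × Bool) ℂ)) *ᵥ
      (fun i : (Fin r → Bool) × Bool => (coin s r).phase O i * (coin s r).state O 1 i) := by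
      show ((if (1 + 1 : ℕ) = 1 then hdl r else 1) : Matrix ((Fin r → Bool) × Bool) ((Fin r → Bool) × Bool) ℂ) *ᵥ
        (fun i : (Fin r → Bool) × Bool => (coin s r).phase O i * (coin s r).state O 1 i) = _
      rw [if_neg (by norm_num)]
    rw [e, Matrix.one_mulVec]
  rw [h2, coin_phase_true, coin_state1, norm_mul, norm_mul, norm_mul]
  by_cases hO : O (wps s (List.ofFn z)) = true
  · rw [if_pos hO, if_pos hO, Complex.norm_real, Complex.norm_real]
    have e1 : ‖(-1 : ℂ)‖ = 1 := by simp
    have e2 : ‖(1 - -1 : ℂ)‖ = 2 := by norm_num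
    rw [e1, e2, Real.norm_eq_abs, Real.norm_eq_abs, abs_of_nonneg (by positivity),
      abs_of_nonneg (by positivity)]
    have e3 : (√2 : ℝ) ^ 2 = 2 := Real.sq_sqrt (by norm_num)
    have e4 : (√(2 ^ (r + 1)) : ℝ) ^ 2 = 2 ^ (r + 1) := Real.sq_sqrt (by positivity)
    rw [one_mul, mul_pow, mul_pow, div_pow, div_pow, e3, e4, pow_succ]
    field_simp
    ring
  · rw [if_neg hO, if_neg hO]
    simp

theorem coi : T_COI := by
  intro O s r
  show ∑ i ∈ (Finset.univ.filter fun z : (Fin r → Bool) × Bool => z.2 = true),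
    ‖(coin s r).state O 2 i‖ ^ 2 = _
  rw [Finset.sum_filter, Fintype.sum_prod_type]
  have h1 : ∀ z : Fin r → Bool, (∑ y : Bool, if ((z, y) : (Fin r → Bool) × Bool).2 = true then
      ‖(coin s r).state O 2 ((z, y) : (Fin r → Bool) × Bool)‖ ^ 2 else 0) =
      if O (wps s (List.ofFn z)) = true then (1 : ℝ) / 2 ^ r else 0 := by
    intro z
    rw [Fintype.sum_bool]
    simp only [if_true, Bool.false_eq_true, if_false, add_zero]
    exact coin_norm2 O s r z
  rw [Finset.sum_congr rfl fun z _ => h1 z, ← Finset.sum_filter, Finset.sum_const, nsmul_eq_mul]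
  unfold nt
  ring

end Pool.Agent.H91.XQ
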